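import Pool.Agent.Helper486.TP.Final

/-!
# The Riesz measure of the lower envelope of `δ`-subharmonic functions

For a domain `Ω ⊆ ℝⁿ`, `n ≥ 1` (the question asks for `n ≥ 3`), and `δ`-subharmonic functions
`w₁, …, w_m`, `m ≥ 2`, the Riesz measure of `min_j w_j` is at least the greatest lower bound of the
Riesz measures of the pairwise minima `min (w_j, w_k)`, `j < k`.
-/

set_option autoImplicit false

namespace Pool.Agent.Results.MP_730047_an.LowerEnvelope

open Pool.Agent.Helper486.TP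

/-- Let `Ω` be a (connected open, nonempty or empty) set in `ℝⁿ`, `n ≥ 1`, `m ≥ 2`, `w₁, …, w_m`
`δ`-subharmonic in `Ω`, `c > 0`. The Riesz measures of `min_j w_j` and of the functions
`min (w_j, w_k)` exist; if `μ` is the Riesz measure of `min_j w_j` and `ρ j k` is that of
`min (w_j, w_k)`, `j < k`, then the measures `ρ j k`, `j < k`, have a greatest lower bound in the
ordered set of signed Radon measures, and every greatest lower bound `I` of them satisfies
`I ≤ μ`. -/
theorem result (n : ℕ) (hn : 0 < n) (Ω : Set (E n)) (hΩ : IsOpen Ω) (hΩc : IsPreconnected Ω)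
    (m : ℕ) (hm : 2 ≤ m) (w : Fin m → E n → EReal) (hw : ∀ j, DeltaSubharmonic Ω (w j))
    (c : ℝ) (hc : 0 < c) :
    (∃ μ, IsRiesz c Ω (fun x => ⨅ j, w j x) μ) ∧
    (∀ j k, ∃ ρ, IsRiesz c Ω (fun x => min (w j x) (w k x)) ρ) ∧
    ∀ (μ : SignedRadon Ω) (ρ : Fin m → Fin m → SignedRadon Ω),
      IsRiesz c Ω (fun x => ⨅ j, w j x) μ →
      (∀ j k, j < k → IsRiesz c Ω (fun x => min (w j x) (w k x)) (ρ j k)) →
      (∃ I, IsGLB {κ | ∃ j k, j < k ∧ κ = ρ j k} I) ∧
      ∀ I, IsGLB {κ | ∃ j k, j < k ∧ κ = ρ j k} I → I ≤ μ :=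
  riesz_envelope hn hΩ hΩc hm w hw hc

end Pool.Agent.Results.MP_730047_an.LowerEnvelope
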